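import Pool.Agent.Helper6_Eng.Stmts

/-! # T8: `8` divides every Engel period of `PSp(4,2)` -/

set_option autoImplicit false

namespace Pool.Agent.Eng.H71

open Matrix

/-- the powers of the element `!![0,1;1,1]` of order 3 -/
def wPow (a : ZMod 3) : Matrix (Fin 2) (Fin 2) (ZMod 2) :=
  if a = 0 then 1 else if a = 1 then !![0, 1; 1, 1] else !![1, 1; 1, 0]

/-- the element `(W^a, W^b)` of `SL(2,2) × SL(2,2)` inside `Sp(4,2)` -/
def vMat (m : ZMod 3 × ZMod 3) : Matrix (Fin 2 ⊕ Fin 2) (Fin 2 ⊕ Fin 2) (ZMod 2) :=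
  fromBlocks !![wPow m.1 0 0, 0; 0, wPow m.2 0 0] !![wPow m.1 0 1, 0; 0, wPow m.2 0 1]
    !![wPow m.1 1 0, 0; 0, wPow m.2 1 0] !![wPow m.1 1 1, 0; 0, wPow m.2 1 1]

def zMat : Matrix (Fin 2 ⊕ Fin 2) (Fin 2 ⊕ Fin 2) (ZMod 2) :=
  fromBlocks !![0, 0; 1, 0] !![0, 1; 0, 0] !![0, 1; 0, 0] !![0, 0; 1, 0]

theorem vMat_mem : ∀ m : ZMod 3 × ZMod 3, vMat m ∈ symplecticGroup (Fin 2) (ZMod 2) := by
  intro m
  rw [SymplecticGroup.mem_iff]
  revert m
  decide +kernel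

theorem zMat_mem : zMat ∈ symplecticGroup (Fin 2) (ZMod 2) := by
  rw [SymplecticGroup.mem_iff]
  decide +kernel

theorem vMat_add : ∀ m m' : ZMod 3 × ZMod 3, vMat (m + m') = vMat m * vMat m' := by
  decide +kernel

def gHom : Multiplicative (ZMod 3 × ZMod 3) →* Sp 2 (ZMod 2) where
  toFun m := ⟨vMat m.toAdd, vMat_mem _⟩
  map_one' := by
    apply Subtype.ext
    change vMat 0 = 1
    decide +kernel
  map_mul' a b := by
    apply Subtype.ext
    exact vMat_add a.toAdd b.toAdd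

def zEl : Sp 2 (ZMod 2) := ⟨zMat, zMat_mem⟩

/-- `T (a,b) = (b, -a)` -/
def sEnd : AddMonoid.End (ZMod 3 × ZMod 3) where
  toFun m := (m.2, -m.1)
  map_zero' := by decide
  map_add' := by decide

theorem sEnd_conj : ∀ m : ZMod 3 × ZMod 3, vMat m * zMat = zMat * vMat (sEnd m) := by
  decide +kernel

theorem ssub_sq : (sEnd - 1) * (sEnd - 1) = sEnd := by
  apply AddMonoidHom.ext
  change ∀ m : ZMod 3 × ZMod 3, (sEnd ((sEnd m) - m) - (sEnd m - m)) = sEnd m
  decide +kernel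

theorem s_four : sEnd ^ 4 = 1 := by
  apply AddMonoidHom.ext
  change ∀ m : ZMod 3 × ZMod 3, sEnd (sEnd (sEnd (sEnd m))) = m
  decide +kernel

theorem s_two : sEnd ^ 2 ≠ 1 := by
  intro hh
  have := DFunLike.congr_fun hh ((1, 0) : ZMod 3 × ZMod 3)
  revert this
  change ¬ (sEnd (sEnd ((1 : ZMod 3), (0 : ZMod 3))) = (1, 0))
  decide

/-- `(T-1)^(r+d) = (T-1)^r` forces `8 ∣ d`. -/
theorem eight_dvd (r d : ℕ) (h : (sEnd - 1) ^ (r + d) = (sEnd - 1) ^ r) : 8 ∣ d := by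
  have h2 : ∀ n : ℕ, (sEnd - 1) ^ (2 * n) = sEnd ^ n := by
    intro n
    rw [pow_mul, pow_two, ssub_sq]
  have h8 : (sEnd - 1) ^ (2 ^ (2 + 1)) = 1 := by
    have := h2 4
    rw [s_four] at this
    exact this
  have h4 : ¬ (sEnd - 1) ^ (2 ^ 2) = 1 := by
    have := h2 2
    intro hh
    apply s_two
    rw [← this]
    exact hh
  have ho : orderOf (sEnd - 1) = 2 ^ (2 + 1) := orderOf_eq_prime_pow h4 h8
  have hu : IsUnit (sEnd - 1) := IsUnit.of_pow_eq_one h8 (by norm_num)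
  have hd : (sEnd - 1) ^ d = 1 := by
    rw [pow_add] at h
    have := (hu.pow r).mul_left_cancel (b := (sEnd - 1) ^ d) (c := 1) (by rw [h, mul_one])
    exact this
  have := orderOf_dvd_of_pow_eq_one hd
  rw [ho] at this
  exact this

theorem t8 (hAb : AbStmt) (hC : SpCenterMatStmt) : T8Stmt := by
  intro d _ hlaw
  obtain ⟨r, hr⟩ := hAb (Sp 2 (ZMod 2)) (Subgroup.center (Sp 2 (ZMod 2))) (ZMod 3 × ZMod 3)
    gHom zEl sEnd (by
      intro m hm
      rw [hC] at hm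
      have h1 : vMat m = 1 ∨ vMat m = -1 := hm
      revert m
      intro m _ h1
      revert m
      decide +kernel) (by
      intro m
      rw [mul_assoc, inv_mul_eq_iff_eq_mul]
      apply Subtype.ext
      exact sEnd_conj m) d hlaw
  exact eight_dvd r d hr

end Pool.Agent.Eng.H71
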