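import Pool.Agent.Helper6_Eng.Stmts

/-! # T3: `3` divides every Engel period of `PSp(4,2)` -/

set_option autoImplicit false

namespace Pool.Agent.Eng.H71

open Matrix

/-- the symmetric matrix `!![a, a+c; a+c, c]`, as an element of the unipotent radical -/
def uMat (m : ZMod 2 × ZMod 2) : Matrix (Fin 2 ⊕ Fin 2) (Fin 2 ⊕ Fin 2) (ZMod 2) :=
  fromBlocks 1 !![m.1, m.1 + m.2; m.1 + m.2, m.2] 0 1

def yMat : Matrix (Fin 2 ⊕ Fin 2) (Fin 2 ⊕ Fin 2) (ZMod 2) :=
  fromBlocks !![0, 1; 1, 1] 0 0 !![1, 1; 1, 0]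

theorem uMat_mem : ∀ m : ZMod 2 × ZMod 2, uMat m ∈ symplecticGroup (Fin 2) (ZMod 2) := by
  intro m
  rw [SymplecticGroup.mem_iff]
  revert m
  decide +kernel

theorem yMat_mem : yMat ∈ symplecticGroup (Fin 2) (ZMod 2) := by
  rw [SymplecticGroup.mem_iff]
  decide +kernel

theorem uMat_add : ∀ m m' : ZMod 2 × ZMod 2, uMat (m + m') = uMat m * uMat m' := by
  decide +kernel

def fHom : Multiplicative (ZMod 2 × ZMod 2) →* Sp 2 (ZMod 2) where
  toFun m := ⟨uMat m.toAdd, uMat_mem _⟩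
  map_one' := by
    apply Subtype.ext
    change uMat 0 = 1
    decide +kernel
  map_mul' a b := by
    apply Subtype.ext
    exact uMat_add a.toAdd b.toAdd

def yEl : Sp 2 (ZMod 2) := ⟨yMat, yMat_mem⟩

/-- `T (a,c) = (a+c, a)` -/
def tEnd : AddMonoid.End (ZMod 2 × ZMod 2) where
  toFun m := (m.1 + m.2, m.1)
  map_zero' := by decide
  map_add' := by decide

theorem tEnd_conj : ∀ m : ZMod 2 × ZMod 2, uMat m * yMat = yMat * uMat (tEnd m) := by
  decide +kernel

theorem tsub_sq : (tEnd - 1) * (tEnd - 1) = tEnd := by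
  apply AddMonoidHom.ext
  change ∀ m : ZMod 2 × ZMod 2, (tEnd ((tEnd m) - m) - (tEnd m - m)) = tEnd m
  decide +kernel

theorem t_cube : tEnd ^ 3 = 1 := by
  apply AddMonoidHom.ext
  change ∀ m : ZMod 2 × ZMod 2, tEnd (tEnd (tEnd m)) = m
  decide +kernel

/-- `(T-1)^(r+d) = (T-1)^r` forces `3 ∣ d`. -/
theorem three_dvd (r d : ℕ) (h : (tEnd - 1) ^ (r + d) = (tEnd - 1) ^ r) : 3 ∣ d := by
  have h6 : (tEnd - 1) ^ 6 = 1 := by
    have : (tEnd - 1) ^ 6 = ((tEnd - 1) * (tEnd - 1)) ^ 3 := by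
      rw [← pow_two, ← pow_mul]
    rw [this, tsub_sq, t_cube]
  have hu : IsUnit (tEnd - 1) := IsUnit.of_pow_eq_one h6 (by norm_num)
  have hd : (tEnd - 1) ^ d = 1 := by
    rw [pow_add] at h
    have := (hu.pow r).mul_left_cancel (b := (tEnd - 1) ^ d) (c := 1) (by rw [h, mul_one])
    exact this
  have hT : tEnd ^ d = 1 := by
    rw [← tsub_sq, ← pow_two, ← pow_mul, mul_comm, pow_mul, hd, one_pow]
  have hmod : tEnd ^ (d % 3) = 1 := by
    have := hT
    rw [← Nat.div_add_mod d 3, pow_add, pow_mul, t_cube, one_pow, one_mul] at this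
    exact this
  have hlt : d % 3 < 3 := Nat.mod_lt _ (by norm_num)
  have hne1 : tEnd ≠ 1 := by
    intro hh
    have := DFunLike.congr_fun hh ((1, 0) : ZMod 2 × ZMod 2)
    revert this
    change ¬ (((1 : ZMod 2) + 0, (1 : ZMod 2)) = (1, 0))
    decide
  have hne2 : tEnd ^ 2 ≠ 1 := by
    intro hh
    have := DFunLike.congr_fun hh ((1, 0) : ZMod 2 × ZMod 2)
    revert this
    change ¬ (tEnd (tEnd ((1 : ZMod 2), (0 : ZMod 2))) = (1, 0))
    decide
  apply Nat.dvd_of_mod_eq_zero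
  interval_cases hx : d % 3
  · rfl
  · exact absurd (by simpa using hmod) hne1
  · exact absurd hmod hne2

theorem t3 (hAb : AbStmt) (hC : SpCenterMatStmt) : T3Stmt := by
  intro d _ hlaw
  obtain ⟨r, hr⟩ := hAb (Sp 2 (ZMod 2)) (Subgroup.center (Sp 2 (ZMod 2))) (ZMod 2 × ZMod 2)
    fHom yEl tEnd (by
      intro m hm
      rw [hC] at hm
      have h1 : uMat m = 1 ∨ uMat m = -1 := hm
      revert m
      intro m _ h1
      revert m
      decide +kernel) (by
      intro m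
      rw [mul_assoc, inv_mul_eq_iff_eq_mul]
      apply Subtype.ext
      exact tEnd_conj m) d hlaw
  exact three_dvd r d hr

end Pool.Agent.Eng.H71
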